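import Pool.Agent.H9.Lap.Targets

/-!
Local modules (MP_c4ad93_co): ORI, LOB, LOC.
-/

namespace Pool.Agent.H73.Lap

open Pool.Agent.H9.Lap Finset Classical

theorem ori : T_ORI := by
  intro V _ F f P O hO hsw
  let h : V × V → ℝ := fun p => if F.Adj p.1 p.2 ∧ P p.1 p.2 then (f p.1 - f p.2) ^ 2 else 0
  have h0 : ∀ p, 0 ≤ h p := by
    intro p
    simp only [h]
    split_ifs
    · exact sq_nonneg _
    · exact le_refl _
  have hEN : EN F f P = (1 / 2) * ∑ p : V × V, h p := by
    unfold EN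
    rw [← Finset.univ_product_univ, Finset.sum_product]
  let O' : Finset (V × V) := O.image Prod.swap
  have hdis : Disjoint O O' := by
    rw [Finset.disjoint_left]
    intro p hp hp'
    obtain ⟨q, hq, hqp⟩ := Finset.mem_image.1 hp'
    apply hsw q hq
    have : (q.2, q.1) = p := by rw [← hqp]; rfl
    rw [this]
    exact hp
  have h1 : ∑ p ∈ O, h p = ∑ p ∈ O, (f p.1 - f p.2) ^ 2 := by
    refine Finset.sum_congr rfl fun p hp => ?_
    obtain ⟨a, b, c⟩ := hO p hp
    simp only [h]
    rw [if_pos ⟨a, b⟩]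
  have h2 : ∑ p ∈ O', h p = ∑ p ∈ O, (f p.1 - f p.2) ^ 2 := by
    simp only [O']
    rw [Finset.sum_image (fun a _ b _ hab => Prod.swap_injective hab)]
    refine Finset.sum_congr rfl fun p hp => ?_
    obtain ⟨a, b, c⟩ := hO p hp
    simp only [h, Prod.fst_swap, Prod.snd_swap]
    rw [if_pos ⟨a.symm, c⟩]
    ring
  have h3 : ∑ p ∈ O ∪ O', h p ≤ ∑ p : V × V, h p :=
    Finset.sum_le_sum_of_subset_of_nonneg (Finset.subset_univ _) (fun p _ _ => h0 p)
  rw [Finset.sum_union hdis, h1, h2] at h3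
  rw [hEN]
  linarith

theorem lob : T_LOB := by
  intro V _ F f X W M m th kap hL hM hm hth0 hth hk1 hk2
  choose! y hyW hyA hyf using hL.hy
  obtain ⟨A, hA⟩ : ∃ A, A = X.filter (fun x => f x < M - th) := ⟨_, rfl⟩
  have hAX : A ⊆ X := by rw [hA]; exact Finset.filter_subset _ _
  have hAf : ∀ x ∈ A, f x < M - th := by
    intro x hx
    rw [hA] at hx
    exact (Finset.mem_filter.1 hx).2
  have hMm : 0 ≤ M + m := by
    have := hL.sep
    have h1 : -(m - th) < M - th := this
    linarith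
  have hO := ori V F f (PX W X) (A.image (fun x => (y x, x))) (by
    intro p hp
    obtain ⟨x, hx, rfl⟩ := Finset.mem_image.1 hp
    have hxX := hAX hx
    refine ⟨(hyA x hxX).symm, ?_, ?_⟩
    · exact ⟨hyW x hxX, hL.sub hxX, Or.inr hxX⟩
    · exact ⟨hL.sub hxX, hyW x hxX, Or.inl hxX⟩) (by
    intro p hp hp'
    obtain ⟨x, hx, rfl⟩ := Finset.mem_image.1 hp
    obtain ⟨x', hx', he⟩ := Finset.mem_image.1 hp'
    have e1 : x' = y x := (Prod.mk.inj he).2
    have h1 := hAf x' hx'
    have h2 := hyf x (hAX hx)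
    rw [e1] at h1
    linarith)
  rw [Finset.sum_image (fun a _ b _ hab => (Prod.mk.inj hab).2)] at hO
  have hsplit : ∑ x ∈ X, (f x - kap) ^ 2
      = ∑ x ∈ A, (f x - kap) ^ 2 + ∑ x ∈ X \ A, (f x - kap) ^ 2 := by
    rw [add_comm, Finset.sum_sdiff hAX]
  have hc : (X.card : ℝ) = A.card + (X \ A).card := by
    rw [← Nat.cast_add, ← Finset.card_sdiff_add_card_eq_card hAX, add_comm]
  have h1 : ∑ x ∈ A, (f x - kap) ^ 2 - 2 * th * (M + m) * A.card
      ≤ ∑ x ∈ A, (f (y x) - f x) ^ 2 := by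
    have : ∑ x ∈ A, ((f x - kap) ^ 2 - 2 * th * (M + m)) ≤ ∑ x ∈ A, (f (y x) - f x) ^ 2 := by
      refine Finset.sum_le_sum fun x hx => ?_
      have a1 := hAf x hx
      have a2 := hyf x (hAX hx)
      have a3 := hm x
      have a4 := hM x
      have d0 : 0 < kap - f x := by linarith
      have dm : kap - f x ≤ M + m := by linarith
      by_cases hd : th ≤ kap - f x
      · have e1 : (kap - f x - th) ^ 2 ≤ (f (y x) - f x) ^ 2 :=
          pow_le_pow_left₀ (by linarith) (by linarith) 2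
        nlinarith [mul_nonneg hth0 (by linarith : 0 ≤ M + m - (kap - f x)), sq_nonneg th]
      · push Not at hd
        have e1 : (f x - kap) ^ 2 ≤ th * th := by nlinarith
        have e2 : th * th ≤ th * (M + m) := mul_le_mul_of_nonneg_left hth hth0
        nlinarith [sq_nonneg (f (y x) - f x), mul_nonneg hth0 hMm]
    rw [Finset.sum_sub_distrib, Finset.sum_const, nsmul_eq_mul] at this
    linarith
  have h2 : ∑ x ∈ X \ A, (f x - kap) ^ 2 ≤ 2 * th * (M + m) * (X \ A).card := by
    have : ∑ x ∈ X \ A, (f x - kap) ^ 2 ≤ ∑ x ∈ X \ A, 2 * th * (M + m) := by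
      refine Finset.sum_le_sum fun x hx => ?_
      have hx' := Finset.mem_sdiff.1 hx
      have a1 : M - th ≤ f x := by
        by_contra hlt
        push Not at hlt
        exact hx'.2 (by rw [hA]; exact Finset.mem_filter.2 ⟨hx'.1, hlt⟩)
      have a4 := hM x
      have e1 : (f x - kap) ^ 2 ≤ th * th := by nlinarith
      have e2 : th * th ≤ th * (M + m) := mul_le_mul_of_nonneg_left hth hth0
      nlinarith [mul_nonneg hth0 hMm]
    rw [Finset.sum_const, nsmul_eq_mul] at this
    linarith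
  rw [hsplit, hc]
  nlinarith

theorem loc : T_LOC := by
  intro V _ F f X W M m th kap hL hM hm hth0 hth hq hk1 hk2
  choose! y hyW hyA hyf using hL.hy
  choose! z hzW hzA hzf using hL.hz
  have hsep : -(m - th) < M - th := hL.sep
  have hMm : 0 ≤ M + m := by linarith
  obtain ⟨Lo, hLo⟩ : ∃ Lo, Lo = X.filter (fun x => f x ≤ -(m - th)) := ⟨_, rfl⟩
  obtain ⟨B, hB⟩ : ∃ B, B = X.filter (fun x => -(m - th) < f x) := ⟨_, rfl⟩
  obtain ⟨C, hC⟩ : ∃ C, C = B.filter (fun x => f x ≤ M / 2) := ⟨_, rfl⟩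
  have hBX : B ⊆ X := by rw [hB]; exact Finset.filter_subset _ _
  have hCB : C ⊆ B := by rw [hC]; exact Finset.filter_subset _ _
  have hBf : ∀ x ∈ B, -(m - th) < f x := by
    intro x hx
    rw [hB] at hx
    exact (Finset.mem_filter.1 hx).2
  have hCf : ∀ x ∈ C, f x ≤ M / 2 := by
    intro x hx
    rw [hC] at hx
    exact (Finset.mem_filter.1 hx).2
  obtain ⟨O1, hO1⟩ : ∃ O1, O1 = B.image (fun x => (x, z x)) := ⟨_, rfl⟩
  obtain ⟨O2, hO2⟩ : ∃ O2, O2 = C.image (fun x => (y x, x)) := ⟨_, rfl⟩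
  have m1 : ∀ p ∈ O1, p.1 ∈ B ∧ p.2 = z p.1 := by
    intro p hp
    rw [hO1] at hp
    obtain ⟨x, hx, rfl⟩ := Finset.mem_image.1 hp
    exact ⟨hx, rfl⟩
  have m2 : ∀ p ∈ O2, p.2 ∈ C ∧ p.1 = y p.2 := by
    intro p hp
    rw [hO2] at hp
    obtain ⟨x, hx, rfl⟩ := Finset.mem_image.1 hp
    exact ⟨hx, rfl⟩
  have hdis : Disjoint O1 O2 := by
    rw [Finset.disjoint_left]
    intro p hp hp'
    have a := m1 p hp
    have b := m2 p hp'
    have c := hzf p.1 (hBX a.1)
    have d := hBf p.2 (hCB b.1)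
    rw [← a.2] at c
    linarith
  have hO := ori V F f (PX W X) (O1 ∪ O2) (by
    intro p hp
    rcases Finset.mem_union.1 hp with hp | hp
    · have a := m1 p hp
      have hxX := hBX a.1
      rw [a.2]
      refine ⟨hzA p.1 hxX, ?_, ?_⟩
      · exact ⟨hL.sub hxX, hzW p.1 hxX, Or.inl hxX⟩
      · exact ⟨hzW p.1 hxX, hL.sub hxX, Or.inr hxX⟩
    · have a := m2 p hp
      have hxX := hBX (hCB a.1)
      rw [a.2]
      refine ⟨(hyA p.2 hxX).symm, ?_, ?_⟩
      · exact ⟨hyW p.2 hxX, hL.sub hxX, Or.inr hxX⟩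
      · exact ⟨hL.sub hxX, hyW p.2 hxX, Or.inl hxX⟩) (by
    intro p hp hp'
    rcases Finset.mem_union.1 hp with hp | hp
    · have a := m1 p hp
      have ca := hzf p.1 (hBX a.1)
      rw [← a.2] at ca
      rcases Finset.mem_union.1 hp' with hp' | hp'
      · have b := m1 _ hp'
        have d := hBf p.2 b.1
        linarith
      · have b := m2 _ hp'
        have d : p.2 = y p.1 := b.2
        have e := hyf p.1 (hBX a.1)
        rw [← d] at e
        linarith
    · have a := m2 p hp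
      have e := hyf p.2 (hBX (hCB a.1))
      rw [← a.2] at e
      have f1 := hCf p.2 a.1
      rcases Finset.mem_union.1 hp' with hp' | hp'
      · have b := m1 _ hp'
        have d : p.1 = z p.2 := b.2
        have g := hzf p.2 (hBX b.1)
        rw [← d] at g
        linarith
      · have b := m2 _ hp'
        have d := hCf p.1 b.1
        linarith)
  rw [Finset.sum_union hdis] at hO
  have s1 : ∑ p ∈ O1, (f p.1 - f p.2) ^ 2 = ∑ x ∈ B, (f x - f (z x)) ^ 2 := by
    rw [hO1, Finset.sum_image (fun a _ b _ hab => (Prod.mk.inj hab).1)]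
  have s2 : ∑ p ∈ O2, (f p.1 - f p.2) ^ 2 = ∑ x ∈ C, (f (y x) - f x) ^ 2 := by
    rw [hO2, Finset.sum_image (fun a _ b _ hab => (Prod.mk.inj hab).2)]
  rw [s1, s2] at hO
  have t1 : ∑ x ∈ B, (f x - f (z x)) ^ 2
      = ∑ x ∈ X, if -(m - th) < f x then (f x - f (z x)) ^ 2 else 0 := by
    rw [hB, Finset.sum_filter]
  have t2 : ∑ x ∈ C, (f (y x) - f x) ^ 2
      = ∑ x ∈ X, if -(m - th) < f x then (if f x ≤ M / 2 then (f (y x) - f x) ^ 2 else 0)
        else 0 := by
    rw [hC, Finset.sum_filter, hB, Finset.sum_filter]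
  have t3 : 2 * th * (M + m) * ((X.filter (fun x => M / 2 < f x)).card : ℝ)
      = ∑ x ∈ X, if M / 2 < f x then 2 * th * (M + m) else 0 := by
    rw [← Finset.sum_filter, Finset.sum_const, nsmul_eq_mul]
    ring
  have t4 : th ^ 2 * (X.card : ℝ) = ∑ x ∈ X, th ^ 2 := by
    rw [Finset.sum_const, nsmul_eq_mul]
    ring
  have key : ∑ x ∈ X, (f x - kap) ^ 2
      ≤ ∑ x ∈ X, (if -(m - th) < f x then (f x - f (z x)) ^ 2 else 0)
        + ∑ x ∈ X, (if -(m - th) < f x then (if f x ≤ M / 2 then (f (y x) - f x) ^ 2 else 0)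
          else 0)
        + ∑ x ∈ X, (if M / 2 < f x then 2 * th * (M + m) else 0) + ∑ x ∈ X, th ^ 2 := by
    rw [← Finset.sum_add_distrib, ← Finset.sum_add_distrib, ← Finset.sum_add_distrib]
    refine Finset.sum_le_sum fun x hx => ?_
    have a1 := hm x
    have a2 := hM x
    have a3 := hyf x hx
    have a4 := hzf x hx
    have e0 : 0 ≤ 2 * th * (M + m) := by positivity
    by_cases h1 : -(m - th) < f x
    · rw [if_pos h1, if_pos h1]
      have d0 : 0 < f x - kap := by linarith
      have dm : f x - kap ≤ M + m := by linarith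
      by_cases hd : th ≤ f x - kap
      · have g1 : (f x - kap - th) ^ 2 ≤ (f x - f (z x)) ^ 2 :=
          pow_le_pow_left₀ (by linarith) (by linarith) 2
        have g2 : (f x - kap) ^ 2 ≤ (f x - f (z x)) ^ 2 + 2 * th * (M + m) := by
          nlinarith [mul_nonneg hth0 (by linarith : 0 ≤ M + m - (f x - kap)), sq_nonneg th]
        by_cases h2 : f x ≤ M / 2
        · rw [if_pos h2, if_neg (by linarith)]
          have g3 : (M / 2 - th) ^ 2 ≤ (f (y x) - f x) ^ 2 :=
            pow_le_pow_left₀ (by linarith) (by linarith) 2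
          nlinarith [sq_nonneg th]
        · rw [if_neg h2, if_pos (by linarith)]
          nlinarith [sq_nonneg th]
      · push Not at hd
        have g1 : (f x - kap) ^ 2 ≤ th ^ 2 := pow_le_pow_left₀ d0.le hd.le 2
        have g2 : 0 ≤ (if f x ≤ M / 2 then (f (y x) - f x) ^ 2 else 0) := by
          split_ifs
          · exact sq_nonneg _
          · exact le_refl _
        have g3 : 0 ≤ (if M / 2 < f x then 2 * th * (M + m) else 0) := by
          split_ifs
          · exact e0
          · exact le_refl _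
        nlinarith [sq_nonneg (f x - f (z x))]
    · rw [if_neg h1, if_neg h1]
      push Not at h1
      have g3 : 0 ≤ (if M / 2 < f x then 2 * th * (M + m) else 0) := by
        split_ifs
        · exact e0
        · exact le_refl _
      have g1 : (f x - kap) ^ 2 ≤ th ^ 2 := by
        apply sq_le_sq'
        · linarith
        · linarith
      linarith
  rw [t3, t4]
  rw [t1, t2] at hO
  linarith

end Pool.Agent.H73.Lap
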