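import Pool.Agent.H9.Lap.Targets

/-!
Numerical modules (MP_c4ad93_co): NU0, NUA, NUB, NUC, NUD, NUI, NUJ.
-/

namespace Pool.Agent.H73.Lap

open Pool.Agent.H9.Lap

theorem nu0 : T_NU0 := by
  intro t n L ht hn hL0 hL1 hq
  have q1 : t + 4 ≤ (t + 2) ^ 2 := by nlinarith
  have q2 : 8 * t ≤ (t + 2) ^ 2 := by nlinarith [sq_nonneg (t - 2)]
  have qpos : 0 < (t + 2) ^ 2 := by positivity
  have h1 : 149 * (t + 2) ^ 2 ≤ n - t - L - 2 := by linarith
  have h2 : L * (149 * (t + 2) ^ 2) ≤ 2 * t :=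
    le_trans (mul_le_mul_of_nonneg_left h1 hL0) hq
  have h3 : L * (149 * (8 * t)) ≤ 2 * t := by
    refine le_trans (mul_le_mul_of_nonneg_left ?_ hL0) h2
    linarith
  have a1 : L * 596 ≤ 1 := by
    have : (L * 596) * (2 * t) ≤ 1 * (2 * t) := by nlinarith
    exact le_of_mul_le_mul_right this (by linarith)
  have a2 : L * t ≤ 27 / 2000 := by
    have h4 : (L * t) * (149 * (t + 2) ^ 2) ≤ 2 * t ^ 2 := by
      have := mul_le_mul_of_nonneg_left h2 (by linarith : (0:ℝ) ≤ t)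
      nlinarith
    have h5 : (L * t) * (149 * (t + 2) ^ 2) ≤ (2 / 149) * (149 * (t + 2) ^ 2) := by nlinarith
    have h6 : L * t ≤ 2 / 149 := le_of_mul_le_mul_right h5 (by positivity)
    linarith
  have a3 : L * (t + 3) ≤ 2 / 149 := by
    have h4 : (L * (t + 3)) * (149 * (t + 2) ^ 2) ≤ 2 * t * (t + 3) := by
      have := mul_le_mul_of_nonneg_left h2 (by linarith : (0:ℝ) ≤ t + 3)
      nlinarith
    have h5 : (L * (t + 3)) * (149 * (t + 2) ^ 2) ≤ (2 / 149) * (149 * (t + 2) ^ 2) := by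
      nlinarith
    exact le_of_mul_le_mul_right h5 (by positivity)
  have a4 : L * n ≤ 2 * t + 7 / 500 := by
    have : L * L ≤ L * 1 := mul_le_mul_of_nonneg_left hL1.le hL0
    nlinarith
  exact ⟨a1, a2, a4, by linarith, by linarith⟩

theorem nua : T_NUA := by
  intro t n L M m P kap u h hu1 hu2
  obtain ⟨b1, b2, b3, b4, b5⟩ := nu0 t n L h.t1 h.big h.L0 h.L1 h.hq
  have ht := h.t1
  have hN : 0 < n - t - 4 := by linarith
  obtain ⟨N, hNdef⟩ : ∃ N, N = n - t - 4 := ⟨_, rfl⟩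
  rw [← hNdef] at hN ⊢
  have hnt : n - t = N + 4 := by linarith
  rw [hnt]
  have key : 0 ≤ (N * kap + u * (M - m)) ^ 2 / N := by positivity
  have e1 : (N * kap + u * (M - m)) ^ 2 / N
      = N * kap ^ 2 + 2 * u * (M - m) * kap + u ^ 2 / N * (M - m) ^ 2 := by
    field_simp
    ring
  rw [e1] at key
  have hM : 0 < M := lt_of_lt_of_le h.m0 h.mM
  have e2 : u ^ 2 / N * (M - m) ^ 2 ≤ u ^ 2 / N * (M + m) ^ 2 := by
    apply mul_le_mul_of_nonneg_left _ (by positivity)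
    nlinarith [mul_pos hM h.m0]
  have e3 : 0 ≤ (4 - 2 * u) * kap ^ 2 := mul_nonneg (by linarith) (sq_nonneg _)
  have e4 : 0 ≤ 2 * u * (L * (M + m)) ^ 2 := by positivity
  nlinarith [key, e2, e3, e4]

theorem nub : T_NUB := by
  intro t n L M m P kap h hk
  obtain ⟨b1, b2, b3, b4, b5⟩ := nu0 t n L h.t1 h.big h.L0 h.L1 h.hq
  have ht := h.t1
  have hM : 0 < M := lt_of_lt_of_le h.m0 h.mM
  obtain ⟨D, hD⟩ : ∃ D, D = M + m := ⟨_, rfl⟩
  rw [← hD] at hk ⊢
  have hDpos : 0 < D := by rw [hD]; linarith [h.m0]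
  have hDM : D ≤ 2 * M := by rw [hD]; linarith [h.mM]
  have hLD : L * D ≤ D / 596 := by nlinarith
  have hk2 : (249 / 500) * D ≤ kap := by linarith
  have hk3 : (31 / 125) * D ^ 2 ≤ kap ^ 2 := by nlinarith
  have h1 : 149 * (t + 2) ^ 2 * ((31 / 125) * D ^ 2) ≤ (n - t) * kap ^ 2 :=
    mul_le_mul b5 hk3 (by positivity) (by nlinarith)
  have h2 : 2 * (L * D) * D * n ≤ (4 * t + 7 / 250) * D ^ 2 := by
    have := mul_le_mul_of_nonneg_right b3 (sq_nonneg D)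
    nlinarith
  have h3 : 4 * (M * m) ≤ D ^ 2 := by rw [hD]; nlinarith [sq_nonneg (M - m)]
  have h4 : (4 * t + 7 / 250 + 1) * D ^ 2 ≤ 149 * (t + 2) ^ 2 * ((31 / 125) * D ^ 2) := by
    have : 4 * t + 7 / 250 + 1 ≤ 149 * (t + 2) ^ 2 * (31 / 125) := by nlinarith
    nlinarith [mul_le_mul_of_nonneg_right this (sq_nonneg D)]
  nlinarith

/-- the bound `D ≤ 12.1 t m` -/
theorem dbound {t n L M m P : ℝ} (h : Num t n L M m P) : M + m ≤ 121 / 10 * t * m := by
  obtain ⟨b1, b2, b3, b4, b5⟩ := nu0 t n L h.t1 h.big h.L0 h.L1 h.hq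
  have ht := h.t1
  have hM : 0 < M := lt_of_lt_of_le h.m0 h.mM
  have hm := h.m0
  obtain ⟨D, hD⟩ : ∃ D, D = M + m := ⟨_, rfl⟩
  have hP := h.hP
  rw [← hD] at hP ⊢
  have hDpos : 0 < D := by rw [hD]; linarith
  have h1 : M / 6 * D ≤ L * P * D := mul_le_mul_of_nonneg_right h.hB.le hDpos.le
  have h2 : L * (D * P) ≤ L * (n * M * m) := mul_le_mul_of_nonneg_left hP h.L0
  have h3 : M * (D / 6) ≤ M * (L * n * m) := by nlinarith
  have h4 : D / 6 ≤ L * n * m := le_of_mul_le_mul_left h3 hM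
  have h5 : L * n * m ≤ (2 * t + 7 / 500) * m := mul_le_mul_of_nonneg_right b3 hm.le
  nlinarith [mul_pos (by linarith : (0:ℝ) < t) hm, mul_nonneg (by linarith : (0:ℝ) ≤ t - 1) hm.le]

theorem nuc : T_NUC := by
  intro t n L M m P kap c h hk hc
  obtain ⟨b1, b2, b3, b4, b5⟩ := nu0 t n L h.t1 h.big h.L0 h.L1 h.hq
  have ht := h.t1
  have hM : 0 < M := lt_of_lt_of_le h.m0 h.mM
  have hm := h.m0
  have hL := h.L0
  have hdb := dbound h
  obtain ⟨D, hD⟩ : ∃ D, D = M + m := ⟨_, rfl⟩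
  have hP := h.hP
  rw [← hD] at hP hk hdb ⊢
  have hDpos : 0 < D := by rw [hD]; linarith
  have hn0 : 0 ≤ n := by nlinarith [sq_nonneg (t + 2)]
  -- c D ≤ 2 n m
  have h1 : M * (c * D) ≤ M * (2 * n * m) := by
    have := mul_le_mul_of_nonneg_right hc hDpos.le
    nlinarith
  have h2 : c * D ≤ 2 * n * m := le_of_mul_le_mul_left h1 hM
  have hLD0 : 0 ≤ L * D := by positivity
  have hbb : 2 * t + 7 / 500 ≤ 1007 / 500 * t := by linarith
  have hLn : L * n ≤ 1007 / 500 * t := le_trans b3 hbb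
  have h3 : 2 * (L * D) * D * c ≤ 4 * (1007 / 500 * t) * (121 / 10 * t * m) * m := by
    have e1 : 2 * (L * D) * (c * D) ≤ 2 * (L * D) * (2 * n * m) :=
      mul_le_mul_of_nonneg_left h2 (by positivity)
    have e2 : (L * n) * (D * m) ≤ (1007 / 500 * t) * (121 / 10 * t * m * m) := by
      apply mul_le_mul hLn _ (by positivity) (by positivity)
      exact mul_le_mul_of_nonneg_right hdb hm.le
    nlinarith
  have hLDb : L * D ≤ 3267 / 20000 * m := by
    have e1 : L * D ≤ L * (121 / 10 * t * m) := mul_le_mul_of_nonneg_left hdb hL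
    have e2 : (L * t) * m ≤ 27 / 2000 * m := mul_le_mul_of_nonneg_right b2 hm.le
    nlinarith
  have h4 : (L * D) ^ 2 * n ≤ (3267 / 20000 * m) * ((1007 / 500 * t) * (121 / 10 * t * m)) := by
    have e1 : (L * n) * D ≤ (1007 / 500 * t) * (121 / 10 * t * m) :=
      mul_le_mul hLn hdb hDpos.le (by positivity)
    have e2 : (L * D) * ((L * n) * D) ≤ (3267 / 20000 * m) * ((1007 / 500 * t) * (121 / 10 * t * m)) :=
      mul_le_mul hLDb e1 (by positivity) (by positivity)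
    nlinarith
  have hk2 : 4183 / 5000 * m ≤ -kap := by linarith
  have hk3 : 3499 / 5000 * m ^ 2 ≤ kap ^ 2 := by
    have : (4183 / 5000 * m) ^ 2 ≤ (-kap) ^ 2 := pow_le_pow_left₀ (by positivity) hk2 2
    nlinarith [sq_nonneg m]
  have h5 : 149 * (t + 2) ^ 2 * (3499 / 5000 * m ^ 2) ≤ (n - t) * kap ^ 2 :=
    mul_le_mul b5 hk3 (by positivity) (by nlinarith)
  have h6 : 4 * (M * m) ≤ 4 * (121 / 10 * t * m) * m := by
    have : M ≤ 121 / 10 * t * m := by linarith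
    nlinarith
  have h7 : (4 * (1007 / 500) * (121 / 10) * t ^ 2 + 3267 / 20000 * (1007 / 500) * (121 / 10) * t ^ 2
      + 4 * (121 / 10) * t) * m ^ 2 ≤ 149 * (t + 2) ^ 2 * (3499 / 5000) * m ^ 2 := by
    apply mul_le_mul_of_nonneg_right _ (sq_nonneg m)
    nlinarith [sq_nonneg t]
  nlinarith

theorem nud : T_NUD := by
  intro t n L M m P h
  obtain ⟨b1, b2, b3, b4, b5⟩ := nu0 t n L h.t1 h.big h.L0 h.L1 h.hq
  have ht := h.t1
  have hM : 0 < M := lt_of_lt_of_le h.m0 h.mM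
  have hm := h.m0
  have hL := h.L0
  have hdb := dbound h
  obtain ⟨D, hD⟩ : ∃ D, D = M + m := ⟨_, rfl⟩
  rw [← hD] at hdb ⊢
  have hDpos : 0 < D := by rw [hD]; linarith
  have hDM : D ≤ 2 * M := by rw [hD]; linarith [h.mM]
  have hLD : L * D ≤ M / 298 := by nlinarith
  have hLDb : L * D ≤ 3267 / 20000 * m := by
    have e1 : L * D ≤ L * (121 / 10 * t * m) := mul_le_mul_of_nonneg_left hdb hL
    have e2 : (L * t) * m ≤ 27 / 2000 * m := mul_le_mul_of_nonneg_right b2 hm.le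
    nlinarith
  refine ⟨by linarith, ?_, by linarith⟩
  have e1 : 2 * (L * D) * D ≤ 2 * (M / 298) * (2 * M) := by
    apply mul_le_mul (by linarith) hDM hDpos.le (by positivity)
  have e2 : 0 ≤ M / 2 - M / 298 := by linarith
  have e3 : (M / 2 - M / 298) ^ 2 ≤ (M / 2 - L * D) ^ 2 := pow_le_pow_left₀ e2 (by linarith) 2
  nlinarith [sq_nonneg M]

theorem nui : T_NUI := by
  intro t n L M m P h
  obtain ⟨b1, b2, b3, b4, b5⟩ := nu0 t n L h.t1 h.big h.L0 h.L1 h.hq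
  have ht := h.t1
  have hM : 0 < M := lt_of_lt_of_le h.m0 h.mM
  have hm := h.m0
  have hL := h.L0
  have hdb := dbound h
  have hN : 0 < n - t - 4 := by linarith
  obtain ⟨N, hNdef⟩ : ∃ N, N = n - t - 4 := ⟨_, rfl⟩
  rw [← hNdef] at hN b4 ⊢
  have hMm : 0 < M * m := mul_pos hM hm
  have hD2 : (M + m) ^ 2 ≤ (121 / 10 * t + 2) * (M * m) := by
    have h1 : M * M ≤ M * (121 / 10 * t * m - m) := mul_le_mul_of_nonneg_left (by linarith) hM.le
    have h2 : m * m ≤ M * m := mul_le_mul_of_nonneg_right h.mM hm.le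
    nlinarith
  have htN : t * (4 / N) ≤ 4 / 1192 := by
    rw [mul_div_assoc', div_le_div_iff₀ hN (by norm_num)]
    linarith
  have h1 : t * (4 * L + 4 / N) ≤ 4 * (27 / 2000) + 4 / 1192 := by nlinarith
  have h2 : t * (4 * L + 4 / N) * (M + m) ^ 2
      ≤ (4 * (27 / 2000) + 4 / 1192) * ((121 / 10 * t + 2) * (M * m)) :=
    mul_le_mul h1 hD2 (by positivity) (by norm_num)
  have h3 : L * n * (M * m) ≤ (2 * t + 7 / 500) * (M * m) :=
    mul_le_mul_of_nonneg_right b3 hMm.le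
  have h4 : (2 * t + 7 / 500 + (4 * (27 / 2000) + 4 / 1192) * (121 / 10 * t + 2)) * (M * m)
      < 4 * t * (M * m) := by
    apply mul_lt_mul_of_pos_right _ hMm
    nlinarith
  nlinarith

theorem nuj : T_NUJ := by
  intro t n L M m P h
  obtain ⟨b1, b2, b3, b4, b5⟩ := nu0 t n L h.t1 h.big h.L0 h.L1 h.hq
  have ht := h.t1
  have hM : 0 < M := lt_of_lt_of_le h.m0 h.mM
  have hm := h.m0
  have hL := h.L0
  have hN : 0 < n - t - 4 := by linarith
  obtain ⟨N, hNdef⟩ : ∃ N, N = n - t - 4 := ⟨_, rfl⟩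
  rw [← hNdef] at hN b4 ⊢
  have hMm : 0 < M * m := mul_pos hM hm
  have htN : t * (1 / N) ≤ 1 / 1192 := by
    rw [mul_div_assoc', div_le_div_iff₀ hN (by norm_num)]
    linarith
  have h1 : t * (2 * L + 1 / N) ≤ 2 * (27 / 2000) + 1 / 1192 := by nlinarith
  have hD2 : 0 ≤ (M + m) ^ 2 := sq_nonneg _
  have h2 : t * (2 * L + 1 / N) * (M + m) ^ 2 ≤ (2 * (27 / 2000) + 1 / 1192) * (M + m) ^ 2 :=
    mul_le_mul_of_nonneg_right h1 hD2
  have h3 : L * n * (M * m) ≤ (2 * t + 7 / 500) * (M * m) :=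
    mul_le_mul_of_nonneg_right b3 hMm.le
  have h4 : (31 / 125) * (M + m) ^ 2 ≤ (M + m) ^ 2 * (1 - 2 * L) ^ 2 / 4 := by
    have : 31 / 125 ≤ (1 - 2 * L) ^ 2 / 4 := by nlinarith [sq_nonneg L]
    nlinarith
  have h5 : 4 * (M * m) ≤ (M + m) ^ 2 := by nlinarith [sq_nonneg (M - m)]
  nlinarith

end Pool.Agent.H73.Lap
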